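import Pool.Agent.Helper85.CR.Goals

/-!
# Packet SDIS of project CR: attaching an antiprism layer, distances
-/

set_option autoImplicit false

namespace Pool.Agent.Helper50.CR

open Pool.Agent.Helper85.CR

/-- Adjacency in the layer and its ring. -/
def Rb : Fin 4 ⊕ Fin 4 → Fin 4 ⊕ Fin 4 → Bool
  | Sum.inl i, Sum.inl j => decide (j = i + 1) || decide (i = j + 1)
  | Sum.inl i, Sum.inr j => upA i j
  | Sum.inr j, Sum.inl i => upA i j
  | Sum.inr i, Sum.inr j => nnA i j || nnA j i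

theorem noClique : ∀ (j : Fin 4) (p q r : Fin 4 ⊕ Fin 4),
    (Rb (Sum.inr j) p && (Rb (Sum.inr j) q && (Rb p q && (Rb (Sum.inr j) r &&
      (Rb p r && Rb q r))))) = false := by
  decide +kernel

theorem ringAdj : ∀ i j : Fin 4, i = j ∨ j = i + 1 ∨ i = j + 1 ∨ (i = 0 ∧ j = 2) ∨
    (i = 2 ∧ j = 0) ∨ (i = 1 ∧ j = 3) ∨ (i = 3 ∧ j = 1) := by
  decide

section
variable {V : Type} {G : SimpleGraph V} {ρ : Fin 4 → V}

theorem ext_ll {u v : V} (h : (ext G ρ upA nnA).Adj (Sum.inl u) (Sum.inl v)) : G.Adj u v := by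
  obtain ⟨-, h⟩ := (SimpleGraph.fromRel_adj _ _ _).mp h
  rcases h with h | h
  · exact h
  · exact (show G.Adj v u from h).symm

theorem ext_ll' {u v : V} (h : G.Adj u v) : (ext G ρ upA nnA).Adj (Sum.inl u) (Sum.inl v) :=
  (SimpleGraph.fromRel_adj _ _ _).mpr ⟨fun he => h.ne (Sum.inl_injective he), Or.inl h⟩

theorem ext_lr {u : V} {j : Fin 4} (h : (ext G ρ upA nnA).Adj (Sum.inl u) (Sum.inr j)) :
    ∃ i, ρ i = u ∧ upA i j = true := by
  obtain ⟨-, h⟩ := (SimpleGraph.fromRel_adj _ _ _).mp h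
  rcases h with h | h
  · exact h
  · exact absurd h id

theorem ext_rr {i j : Fin 4} (h : (ext G ρ upA nnA).Adj (Sum.inr i) (Sum.inr j)) :
    nnA i j = true ∨ nnA j i = true := by
  obtain ⟨-, h⟩ := (SimpleGraph.fromRel_adj _ _ _).mp h
  exact h

theorem ext_ring (j : Fin 4) : (ext G ρ upA nnA).Adj (Sum.inl (ρ j)) (Sum.inr j) := by
  refine (SimpleGraph.fromRel_adj _ _ _).mpr ⟨by simp, Or.inl ⟨j, rfl, ?_⟩⟩
  simp [upA]

theorem ext_Rb (hinj : Function.Injective ρ) (h02 : ¬ G.Adj (ρ 0) (ρ 2))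
    (h13 : ¬ G.Adj (ρ 1) (ρ 3)) (p q : Fin 4 ⊕ Fin 4)
    (h : (ext G ρ upA nnA).Adj (Sum.map ρ id p) (Sum.map ρ id q)) : Rb p q = true := by
  rcases p with i | i <;> rcases q with j | j
  · have h' : G.Adj (ρ i) (ρ j) := ext_ll h
    show (decide (j = i + 1) || decide (i = j + 1)) = true
    rw [Bool.or_eq_true, decide_eq_true_eq, decide_eq_true_eq]
    rcases ringAdj i j with h1 | h1 | h1 | ⟨h1, h2⟩ | ⟨h1, h2⟩ | ⟨h1, h2⟩ | ⟨h1, h2⟩
    · rw [h1] at h'
      exact absurd rfl h'.ne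
    · exact Or.inl h1
    · exact Or.inr h1
    · rw [h1, h2] at h'
      exact absurd h' h02
    · rw [h1, h2] at h'
      exact absurd h'.symm h02
    · rw [h1, h2] at h'
      exact absurd h' h13
    · rw [h1, h2] at h'
      exact absurd h'.symm h13
  · obtain ⟨i', hi', hu⟩ := ext_lr h
    rw [hinj hi'] at hu
    exact hu
  · obtain ⟨i', hi', hu⟩ := ext_lr h.symm
    rw [hinj hi'] at hu
    exact hu
  · show (nnA i j || nnA j i) = true
    rw [Bool.or_eq_true]
    exact ext_rr h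

theorem ext_mp {j : Fin 4} {x : V ⊕ Fin 4} (h : (ext G ρ upA nnA).Adj (Sum.inr j) x) :
    ∃ p, x = Sum.map ρ id p := by
  rcases x with u | i
  · obtain ⟨i, hi, -⟩ := ext_lr h.symm
    exact ⟨Sum.inl i, by rw [← hi]; rfl⟩
  · exact ⟨Sum.inr i, rfl⟩

theorem noNew (hinj : Function.Injective ρ) (h02 : ¬ G.Adj (ρ 0) (ρ 2))
    (h13 : ¬ G.Adj (ρ 1) (ρ 3)) (j : Fin 4) (b c d : V ⊕ Fin 4)
    (hb : (ext G ρ upA nnA).Adj (Sum.inr j) b) (hc : (ext G ρ upA nnA).Adj (Sum.inr j) c)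
    (hd : (ext G ρ upA nnA).Adj (Sum.inr j) d) (hbc : (ext G ρ upA nnA).Adj b c)
    (hbd : (ext G ρ upA nnA).Adj b d) (hcd : (ext G ρ upA nnA).Adj c d) : False := by
  obtain ⟨p, rfl⟩ := ext_mp hb
  obtain ⟨q, rfl⟩ := ext_mp hc
  obtain ⟨r, rfl⟩ := ext_mp hd
  have h1 := noClique j p q r
  rw [ext_Rb hinj h02 h13 (Sum.inr j) p hb, ext_Rb hinj h02 h13 (Sum.inr j) q hc,
    ext_Rb hinj h02 h13 (Sum.inr j) r hd, ext_Rb hinj h02 h13 p q hbc,
    ext_Rb hinj h02 h13 p r hbd, ext_Rb hinj h02 h13 q r hcd] at h1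
  exact absurd h1 (by decide)

end

theorem gSDIS : StmtSDIS := by
  intro V G ρ h m hinj h02 h13 hD
  obtain ⟨f, f0, fadj, fρ⟩ := hD.lev
  refine ⟨?_, ⟨Sum.elim f (fun _ => m + 1), f0, ?_, fun i => rfl⟩, ?_⟩
  · -- connected
    have hl : ∀ u v : V, (ext G ρ upA nnA).Reachable (Sum.inl u) (Sum.inl v) := by
      intro u v
      obtain ⟨w⟩ := hD.conn.preconnected u v
      induction w with
      | nil => exact SimpleGraph.Reachable.refl _
      | cons huv _ ih => exact (ext_ll' huv).reachable.trans ih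
    have hx : ∀ x : V ⊕ Fin 4, (ext G ρ upA nnA).Reachable (Sum.inl h) x := by
      intro x
      rcases x with v | j
      · exact hl h v
      · exact (hl h (ρ j)).trans (ext_ring j).reachable
    exact (SimpleGraph.connected_iff _).mpr
      ⟨fun x y => (hx x).symm.trans (hx y), ⟨Sum.inl h⟩⟩
  · intro u v huv
    rcases u with u | i <;> rcases v with v | j
    · exact fadj u v (ext_ll huv)
    · obtain ⟨i, hi, -⟩ := ext_lr huv
      show m + 1 ≤ f u + 1
      rw [← hi, fρ]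
    · obtain ⟨j, hj, -⟩ := ext_lr huv.symm
      show f v ≤ m + 1 + 1
      rw [← hj, fρ]
      omega
    · show m + 1 ≤ m + 1 + 1
      omega
  · rintro a b c d ⟨hab, hac, had, hbc, hbd, hcd⟩
    rcases a with a | a
    · rcases b with b | b
      · rcases c with c | c
        · rcases d with d | d
          · exact hD.k4 a b c d ⟨ext_ll hab, ext_ll hac, ext_ll had, ext_ll hbc, ext_ll hbd,
              ext_ll hcd⟩
          · exact noNew hinj h02 h13 d _ _ _ had.symm hbd.symm hcd.symm hab hac hbc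
        · exact noNew hinj h02 h13 c _ _ _ hac.symm hbc.symm hcd hab had hbd
      · exact noNew hinj h02 h13 b _ _ _ hab.symm hbc hbd hac had hcd
    · exact noNew hinj h02 h13 a _ _ _ hab hac had hbc hbd hcd

end Pool.Agent.Helper50.CR
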