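import Pool.Agent.Helper85.CR.Goals

/-!
# Packet SDR of project CR: attaching a layer to a drawing
-/

set_option autoImplicit false

namespace Pool.Agent.Helper50.CR

open Pool.Agent.Helper85.CR

section
variable {V X : Type} {ρ : Fin 4 → V} {t s : ℕ} {cv : Fin t → ℕ} {cx : Fin s → ℕ}

open Classical in
/-- The names of the codes. -/
noncomputable def nm (X : Type) (ρ : Fin 4 → V) (cv : Fin t → ℕ) (cx : Fin s → ℕ) (c : ℕ) :
    (V ⊕ Fin t) ⊕ (X ⊕ Fin s) :=
  if h : ∃ j, cv j = c then Sum.inl (Sum.inr h.choose)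
  else if h : ∃ y, cx y = c then Sum.inr (Sum.inr h.choose)
  else Sum.inl (Sum.inl (ρ (Fin.ofNat 4 c)))

theorem nm_cv (hinj : Function.Injective cv) (j : Fin t) :
    nm X ρ cv cx (cv j) = Sum.inl (Sum.inr j) := by
  have h : ∃ j', cv j' = cv j := ⟨j, rfl⟩
  unfold nm
  rw [dif_pos h]
  have h2 := h.choose_spec
  rw [hinj h2]

theorem nm_cx (hinj : Function.Injective cx) (hcc : ∀ j y, cv j ≠ cx y) (y : Fin s) :
    nm X ρ cv cx (cx y) = Sum.inr (Sum.inr y) := by
  have h0 : ¬ ∃ j, cv j = cx y := by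
    rintro ⟨j, hj⟩
    exact hcc j y hj
  have h : ∃ y', cx y' = cx y := ⟨y, rfl⟩
  unfold nm
  rw [dif_neg h0, dif_pos h]
  have h2 := h.choose_spec
  rw [hinj h2]

theorem nm_lt (hcv : ∀ j, 4 ≤ cv j) (hcx : ∀ y, 4 ≤ cx y) (i : Fin 4) :
    nm X ρ cv cx (i : ℕ) = Sum.inl (Sum.inl (ρ i)) := by
  have h0 : ¬ ∃ j, cv j = (i : ℕ) := by
    rintro ⟨j, hj⟩
    have := hcv j
    omega
  have h1 : ¬ ∃ y, cx y = (i : ℕ) := by
    rintro ⟨j, hj⟩
    have := hcx j
    omega
  unfold nm
  rw [dif_neg h0, dif_neg h1]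
  have h2 : Fin.ofNat 4 (i : ℕ) = i := by
    apply Fin.ext
    simp [Fin.ofNat]
  rw [h2]

theorem codes (hv : Function.Injective cv) (hx : Function.Injective cx)
    (hcc : ∀ j y, cv j ≠ cx y) (hcv : ∀ j, 4 ≤ cv j ∧ cv j < 4 + t + s)
    (hcx : ∀ y, 4 ≤ cx y ∧ cx y < 4 + t + s) (c : ℕ) (h4 : 4 ≤ c) (hc : c < 4 + (t + s)) :
    (∃ j, cv j = c) ∨ ∃ y, cx y = c := by
  classical
  obtain ⟨g, hg⟩ : ∃ g : Fin t ⊕ Fin s → ℕ, g = Sum.elim cv cx := ⟨_, rfl⟩
  have hginj : Function.Injective g := by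
    rw [hg]
    exact Function.Injective.sumElim hv hx hcc
  have himg : Finset.univ.image g = Finset.Ico 4 (4 + (t + s)) := by
    apply Finset.eq_of_subset_of_card_le
    · intro y hy
      obtain ⟨a, _, rfl⟩ := Finset.mem_image.mp hy
      rw [Finset.mem_Ico]
      rcases a with a | a
      · have := hcv a
        rw [hg]
        show 4 ≤ cv a ∧ cv a < 4 + (t + s)
        omega
      · have := hcx a
        rw [hg]
        show 4 ≤ cx a ∧ cx a < 4 + (t + s)
        omega
    · rw [Finset.card_image_of_injective _ hginj]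
      simp
  have hmem : c ∈ Finset.univ.image g := by
    rw [himg, Finset.mem_Ico]
    exact ⟨h4, hc⟩
  obtain ⟨a, _, ha⟩ := Finset.mem_image.mp hmem
  rw [hg] at ha
  rcases a with a | a
  · exact Or.inl ⟨a, ha⟩
  · exact Or.inr ⟨a, ha⟩

end

theorem edg_of {W : Type} (nm : ℕ → W) (E : List (ℕ × ℕ)) (a b : ℕ)
    (h : (a, b) ∈ E ∨ (b, a) ∈ E) : edg nm E (nm a) (nm b) := by
  rcases h with h | h
  · exact ⟨(a, b), h, Or.inl ⟨rfl, rfl⟩⟩
  · exact ⟨(b, a), h, Or.inr ⟨rfl, rfl⟩⟩

theorem edg_symm {W : Type} (nm : ℕ → W) (E : List (ℕ × ℕ)) (x y : W)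
    (h : edg nm E x y) : edg nm E y x := by
  obtain ⟨p, hp, h | h⟩ := h
  · exact ⟨p, hp, Or.inr ⟨h.2, h.1⟩⟩
  · exact ⟨p, hp, Or.inl ⟨h.2, h.1⟩⟩

theorem sdr (hTRA : StmtTRA) (hROTL : StmtROTL) (hRUN : StmtRUN) : StmtSDR := by
  intro V X G ρ q t s up nn ι lq P cv cx hring hC hL
  obtain ⟨A, hA, hplan⟩ := hC.disc
  have hcv4 : ∀ j, 4 ≤ cv j := fun j => (hL.cvlt j).1
  have hcx4 : ∀ y, 4 ≤ cx y := fun y => (hL.cxlt y).1
  obtain ⟨N, hN⟩ : ∃ N : ℕ → (V ⊕ Fin t) ⊕ (X ⊕ Fin s), N = nm X ρ cv cx := ⟨_, rfl⟩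
  have hNcv : ∀ j, N (cv j) = Sum.inl (Sum.inr j) := fun j => by
    rw [hN]; exact nm_cv hL.cvinj j
  have hNcx : ∀ y, N (cx y) = Sum.inr (Sum.inr y) := fun y => by
    rw [hN]; exact nm_cx hL.cxinj hL.cvcx y
  have hNlt : ∀ i : Fin 4, N (i : ℕ) = Sum.inl (Sum.inl (ρ i)) := fun i => by
    rw [hN]; exact nm_lt hcv4 hcx4 i
  have hcod : ∀ c, c < 4 + P.length →
      (∃ i : Fin 4, c = (i : ℕ)) ∨ (∃ j, c = cv j) ∨ ∃ y, c = cx y := by
    intro c hc
    rcases Nat.lt_or_ge c 4 with h | h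
    · exact Or.inl ⟨⟨c, h⟩, rfl⟩
    · rw [hL.len] at hc
      rcases codes hL.cvinj hL.cxinj hL.cvcx hL.cvlt hL.cxlt c h hc with ⟨j, hj⟩ | ⟨y, hy⟩
      · exact Or.inr (Or.inl ⟨j, hj.symm⟩)
      · exact Or.inr (Or.inr ⟨y, hy.symm⟩)
  obtain ⟨f, hf⟩ : ∃ f : V ⊕ X → (V ⊕ Fin t) ⊕ (X ⊕ Fin s), f = Sum.map Sum.inl Sum.inl :=
    ⟨_, rfl⟩
  have hfinj : Function.Injective f := by
    rw [hf]
    exact Function.Injective.sumMap Sum.inl_injective Sum.inl_injective
  obtain ⟨A', hA'⟩ : ∃ A' : (V ⊕ Fin t) ⊕ (X ⊕ Fin s) → (V ⊕ Fin t) ⊕ (X ⊕ Fin s) → Prop,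
      A' = fun x y => ∃ u v, A u v ∧ f u = x ∧ f v = y := ⟨_, rfl⟩
  obtain ⟨E, hE⟩ : ∃ E, E = (run ⟨4, [], [0, 1, 2, 3]⟩ P).E := ⟨_, rfl⟩
  -- the disc
  have hdisc : Disc Set.univ (fun x y => A' x y ∨ edg N E x y)
      [Sum.inl (Sum.inr (ι 0)), Sum.inl (Sum.inr (ι 1)), Sum.inl (Sum.inr (ι 2)),
        Sum.inl (Sum.inr (ι 3))] := by
    have h1 := hTRA _ _ f Set.univ A _ hfinj hA
    have h2 := hRUN _ N (f '' Set.univ) A' 4 P ⟨4, [], [0, 1, 2, 3]⟩ hL.ok le_rfl ?_ ?_ ?_ ?_
    · obtain ⟨r, hr⟩ := hL.bd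
      have h3 := hROTL _ _ _ _ r h2
      rw [← List.map_rotate, hr] at h3
      have hS : f '' Set.univ ∪ N '' {i | 4 ≤ i ∧ i < (⟨4, [], [0, 1, 2, 3]⟩ : St).n + P.length} =
          Set.univ := by
        rw [Set.eq_univ_iff_forall]
        intro w
        rcases w with (v | j) | (x | y)
        · exact Or.inl ⟨Sum.inl v, trivial, by rw [hf]; rfl⟩
        · refine Or.inr ⟨cv j, ⟨(hL.cvlt j).1, ?_⟩, hNcv j⟩
          have := (hL.cvlt j).2
          rw [hL.len]
          show cv j < 4 + (t + s)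
          omega
        · exact Or.inl ⟨Sum.inr x, trivial, by rw [hf]; rfl⟩
        · refine Or.inr ⟨cx y, ⟨(hL.cxlt y).1, ?_⟩, hNcx y⟩
          have := (hL.cxlt y).2
          rw [hL.len]
          show cx y < 4 + (t + s)
          omega
      rw [hS, ← hE] at h3
      simp only [List.map_cons, List.map_nil, hNcv] at h3
      exact h3
    · intro x hx
      simp only [List.mem_cons, List.not_mem_nil, or_false] at hx
      show x < 4
      omega
    · intro a ha b hb hab
      have ha' : a < 4 + P.length := ha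
      have hb' : b < 4 + P.length := hb
      rcases hcod a ha' with ⟨i, rfl⟩ | ⟨j, rfl⟩ | ⟨y, rfl⟩ <;>
      rcases hcod b hb' with ⟨i', rfl⟩ | ⟨j', rfl⟩ | ⟨y', rfl⟩
      · rw [hNlt, hNlt] at hab
        rw [hC.inj (Sum.inl_injective (Sum.inl_injective hab))]
      · rw [hNlt, hNcv] at hab
        exact absurd (Sum.inl_injective hab) (by simp)
      · rw [hNlt, hNcx] at hab
        exact absurd hab (by simp)
      · rw [hNlt, hNcv] at hab
        exact absurd (Sum.inl_injective hab) (by simp)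
      · rw [hNcv, hNcv] at hab
        rw [Sum.inr_injective (Sum.inl_injective hab)]
      · rw [hNcv, hNcx] at hab
        exact absurd hab (by simp)
      · rw [hNlt, hNcx] at hab
        exact absurd hab (by simp)
      · rw [hNcv, hNcx] at hab
        exact absurd hab (by simp)
      · rw [hNcx, hNcx] at hab
        rw [Sum.inr_injective (Sum.inr_injective hab)]
    · intro i hi4 hi hmem
      have hi' : i < 4 + P.length := hi
      obtain ⟨w, _, hw⟩ := hmem
      rcases hcod i hi' with ⟨i, rfl⟩ | ⟨j, rfl⟩ | ⟨y, rfl⟩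
      · have := i.2
        omega
      · rw [hNcv, hf] at hw
        rcases w with v | x
        · exact absurd hw (by simp)
        · exact absurd hw (by simp)
      · rw [hNcx, hf] at hw
        rcases w with v | x
        · exact absurd hw (by simp)
        · exact absurd hw (by simp)
    · have e1 : f '' Set.univ ∪ N '' {i | 4 ≤ i ∧ i < (⟨4, [], [0, 1, 2, 3]⟩ : St).n} =
          f '' Set.univ := by
        have : {i | 4 ≤ i ∧ i < (⟨4, [], [0, 1, 2, 3]⟩ : St).n} = (∅ : Set ℕ) := by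
          rw [Set.eq_empty_iff_forall_notMem]
          rintro i ⟨h, h'⟩
          have h'' : i < 4 := h'
          omega
        rw [this, Set.image_empty, Set.union_empty]
      have e2 : (fun x y => A' x y ∨ edg N (⟨4, [], [0, 1, 2, 3]⟩ : St).E x y) = A' := by
        funext x y
        apply propext
        constructor
        · rintro (h | ⟨p, hp, _⟩)
          · exact h
          · exact absurd hp (List.not_mem_nil)
        · exact Or.inl
      rw [e1, e2, hA']
      have e3 : (⟨4, [], [0, 1, 2, 3]⟩ : St).bd.map N =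
          [Sum.inl (ρ 0), Sum.inl (ρ 1), Sum.inl (ρ 2), Sum.inl (ρ 3)].map f := by
        have k0 := hNlt 0
        have k1 := hNlt 1
        have k2 := hNlt 2
        have k3 := hNlt 3
        simp only [List.map_cons, List.map_nil]
        rw [hf]
        exact List.cons_eq_cons.mpr ⟨k0, List.cons_eq_cons.mpr ⟨k1, List.cons_eq_cons.mpr ⟨k2,
          List.cons_eq_cons.mpr ⟨k3, rfl⟩⟩⟩⟩
      rw [e3]
      exact h1
  -- the map of the layer
  obtain ⟨mp, hmp⟩ : ∃ mp : Fin 4 ⊕ Fin t → V ⊕ Fin t, mp = Sum.map ρ id := ⟨_, rfl⟩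
  have hmpinj : Function.Injective mp := by
    rw [hmp]
    exact Function.Injective.sumMap hC.inj Function.injective_id
  have hmpl : ∀ p v, mp p = Sum.inl v → ∃ i, p = Sum.inl i := by
    intro p v h
    rcases p with i | j
    · exact ⟨i, rfl⟩
    · rw [hmp] at h
      exact absurd h (by simp)
  have hq1 : ∀ (a b : V) (p p' : Fin 4 ⊕ Fin t),
      s((Sum.inl a : V ⊕ Fin t), Sum.inl b) = s(mp p, mp p') →
      ∃ i j, s(p, p') = s(Sum.inl i, Sum.inl j) := by
    intro a b p p' h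
    rw [Sym2.eq_iff] at h
    rcases h with ⟨h1, h2⟩ | ⟨h1, h2⟩
    · obtain ⟨i, rfl⟩ := hmpl p a h1.symm
      obtain ⟨j, rfl⟩ := hmpl p' b h2.symm
      exact ⟨i, j, rfl⟩
    · obtain ⟨i, rfl⟩ := hmpl p' a h1.symm
      obtain ⟨j, rfl⟩ := hmpl p b h2.symm
      exact ⟨j, i, rfl⟩
  have hq2 : ∀ (p p' r r' : Fin 4 ⊕ Fin t), s(mp p, mp p') = s(mp r, mp r') →
      s(p, p') = s(r, r') := by
    intro p p' r r' h
    rw [Sym2.eq_iff] at h ⊢
    rcases h with ⟨h1, h2⟩ | ⟨h1, h2⟩
    · exact Or.inl ⟨hmpinj h1, hmpinj h2⟩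
    · exact Or.inr ⟨hmpinj h1, hmpinj h2⟩
  have hq3 : ∀ (a b c d : V), s((Sum.inl a : V ⊕ Fin t), Sum.inl b) = s(Sum.inl c, Sum.inl d) →
      s(a, b) = s(c, d) := by
    intro a b c d h
    rw [Sym2.eq_iff] at h ⊢
    rcases h with ⟨h1, h2⟩ | ⟨h1, h2⟩
    · exact Or.inl ⟨Sum.inl_injective h1, Sum.inl_injective h2⟩
    · exact Or.inr ⟨Sum.inl_injective h1, Sum.inl_injective h2⟩
  have hxl : ∀ x i, extq ρ q lq (Sum.inl x) i = Sum.inl (q x i) := fun x i => rfl
  have hxr : ∀ y i, extq ρ q lq (Sum.inr y) i = mp (lq y i) := fun y i => by rw [hmp]; rfl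
  have hno0 : ∀ (a b : V) (y : Fin s), s((Sum.inl a : V ⊕ Fin t), Sum.inl b) ≠
      s(mp (lq y 0), mp (lq y 2)) := by
    intro a b y h
    obtain ⟨i, j, hij⟩ := hq1 a b _ _ h
    exact hL.qnew i j ⟨y, Or.inl hij.symm⟩
  have hno1 : ∀ (a b : V) (y : Fin s), s((Sum.inl a : V ⊕ Fin t), Sum.inl b) ≠
      s(mp (lq y 1), mp (lq y 3)) := by
    intro a b y h
    obtain ⟨i, j, hij⟩ := hq1 a b _ _ h
    exact hL.qnew i j ⟨y, Or.inr hij.symm⟩
  -- adjacency of the layer
  have hlay : ∀ p p', (lay up nn).Adj p p' → (ext G ρ up nn).Adj (mp p) (mp p') := by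
    intro p p' h
    have hne : mp p ≠ mp p' := fun he => h.ne (hmpinj he)
    have hcyc : ∀ i j, cyc4.Adj i j → G.Adj (ρ i) (ρ j) := by
      intro i j h'
      unfold cyc4 at h'
      rw [SimpleGraph.fromRel_adj] at h'
      rcases h'.2 with h'' | h''
      · rw [h'']
        exact hring i
      · rw [h'']
        exact (hring j).symm
    obtain ⟨-, h'⟩ := (SimpleGraph.fromRel_adj _ _ _).mp h
    refine (SimpleGraph.fromRel_adj _ _ _).mpr ⟨hne, ?_⟩
    rw [hmp]
    rcases p with i | i <;> rcases p' with j | j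
    · rcases h' with h' | h'
      · exact Or.inl (hcyc i j h')
      · exact Or.inr (hcyc j i h')
    · rcases h' with h' | h'
      · obtain ⟨i', hi', hu⟩ := h'
        exact Or.inl ⟨i', by rw [← hi']; rfl, hu⟩
      · exact absurd h' id
    · rcases h' with h' | h'
      · exact absurd h' id
      · obtain ⟨i', hi', hu⟩ := h'
        exact Or.inr ⟨i', by rw [← hi']; rfl, hu⟩
    · rcases h' with h' | h'
      · exact Or.inl h'
      · exact Or.inr h'
  refine ⟨?_, ⟨?_, ?_, ?_⟩, _, hdisc, ⟨?_, ?_⟩⟩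
  · intro i j h
    exact hL.inj (Sum.inr_injective h)
  · intro x
    rcases x with x | y
    · intro i j h
      exact hC.qok.inj x (Sum.inl_injective h)
    · intro i j h
      rw [hxr, hxr] at h
      exact hL.qinj y (hmpinj h)
  · intro x
    rcases x with x | y
    · have hl : ∀ a b, G.Adj a b → (ext G ρ up nn).Adj (Sum.inl a) (Sum.inl b) := by
        intro a b hab
        refine (SimpleGraph.fromRel_adj _ _ _).mpr ⟨?_, Or.inl hab⟩
        exact fun he => hab.ne (Sum.inl_injective he)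
      exact ⟨hl _ _ (hC.qok.adj x).1, hl _ _ (hC.qok.adj x).2⟩
    · rw [hxr, hxr, hxr, hxr]
      exact ⟨hlay _ _ (hL.qadj y).1, hlay _ _ (hL.qadj y).2⟩
  · intro x y hxy
    rcases x with x | x <;> rcases y with y | y
    · have hne : x ≠ y := fun h => hxy (by rw [h])
      obtain ⟨h1, h2, h3⟩ := hC.qok.dist x y hne
      simp only [hxl]
      exact ⟨fun h => h1 (hq3 _ _ _ _ h), fun h => h2 (hq3 _ _ _ _ h),
        fun h => h3 (hq3 _ _ _ _ h)⟩
    · simp only [hxl, hxr]
      exact ⟨hno0 _ _ _, hno1 _ _ _, hno1 _ _ _⟩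
    · simp only [hxl, hxr]
      exact ⟨(hno0 _ _ _).symm, (hno0 _ _ _).symm, (hno1 _ _ _).symm⟩
    · have hne : x ≠ y := fun h => hxy (by rw [h])
      obtain ⟨h1, h2, h3⟩ := hL.qdist x y hne
      simp only [hxr]
      exact ⟨fun h => h1 (hq2 _ _ _ _ h), fun h => h2 (hq2 _ _ _ _ h),
        fun h => h3 (hq2 _ _ _ _ h)⟩
  · intro u v huv hnc
    have huv' := (SimpleGraph.fromRel_adj _ _ _).mp huv
    obtain ⟨hne, hor⟩ := huv'
    -- the case of an edge from the ring to a new vertex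
    have hup : ∀ (a : V) (j : Fin t) (i : Fin 4), ρ i = a → up i j = true →
        ¬ Crossed (extq ρ q lq) s(Sum.inl a, Sum.inr j) →
        edg N E (Sum.inl (Sum.inl a)) (Sum.inl (Sum.inr j)) := by
      intro a j i hi hu hn
      have h1 : ¬ Crossed lq s(Sum.inl i, Sum.inr j) := by
        rintro ⟨y, hy⟩
        apply hn
        refine ⟨Sum.inr y, ?_⟩
        rw [hxr, hxr, hxr, hxr]
        have e : s((Sum.inl a : V ⊕ Fin t), Sum.inr j) = Sym2.map mp s(Sum.inl i, Sum.inr j) := by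
          rw [Sym2.map_mk, hmp, ← hi]
          rfl
        rw [e]
        rcases hy with hy | hy
        · left
          rw [hy, Sym2.map_mk]
        · right
          rw [hy, Sym2.map_mk]
      have h2 := hL.eup i j hu h1
      rw [← hE] at h2
      have h3 := edg_of N E _ _ h2
      rw [hNlt, hNcv, hi] at h3
      exact h3
    have hnn : ∀ (i j : Fin t), i ≠ j → nn i j = true →
        ¬ Crossed (extq ρ q lq) s(Sum.inr i, Sum.inr j) →
        edg N E (Sum.inl (Sum.inr i)) (Sum.inl (Sum.inr j)) := by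
      intro i j hij hu hn
      have h1 : ¬ Crossed lq s(Sum.inr i, Sum.inr j) := by
        rintro ⟨y, hy⟩
        apply hn
        refine ⟨Sum.inr y, ?_⟩
        rw [hxr, hxr, hxr, hxr]
        have e : s((Sum.inr i : V ⊕ Fin t), Sum.inr j) = Sym2.map mp s(Sum.inr i, Sum.inr j) := by
          rw [Sym2.map_mk, hmp]
          rfl
        rw [e]
        rcases hy with hy | hy
        · left
          rw [hy, Sym2.map_mk]
        · right
          rw [hy, Sym2.map_mk]
      have h2 := hL.enn i j hu hij h1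
      rw [← hE] at h2
      have h3 := edg_of N E _ _ h2
      rw [hNcv, hNcv] at h3
      exact h3
    rcases u with a | i <;> rcases v with b | j
    · left
      have hab : G.Adj a b := by
        rcases hor with h | h
        · exact h
        · exact (show G.Adj b a from h).symm
      have hcr : ¬ Crossed q s(a, b) := by
        rintro ⟨x, hx⟩
        apply hnc
        refine ⟨Sum.inl x, ?_⟩
        simp only [hxl]
        rcases hx with hx | hx
        · left
          have := congrArg (Sym2.map (Sum.inl : V → V ⊕ Fin t)) hx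
          simpa only [Sym2.map_mk] using this
        · right
          have := congrArg (Sym2.map (Sum.inl : V → V ⊕ Fin t)) hx
          simpa only [Sym2.map_mk] using this
      rw [hA']
      exact ⟨Sum.inl a, Sum.inl b, hplan.old a b hab hcr, by rw [hf]; rfl, by rw [hf]; rfl⟩
    · right
      rcases hor with h | h
      · obtain ⟨i, hi, hu⟩ := h
        exact hup a j i hi hu hnc
      · exact absurd h id
    · right
      apply edg_symm
      rcases hor with h | h
      · exact absurd h id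
      · obtain ⟨i', hi, hu⟩ := h
        refine hup b i i' hi hu ?_
        rw [Sym2.eq_swap]
        exact hnc
    · right
      have hij : i ≠ j := fun h => hne (by rw [h])
      rcases hor with h | h
      · exact hnn i j hij h hnc
      · apply edg_symm
        refine hnn j i hij.symm h ?_
        rw [Sym2.eq_swap]
        exact hnc
  · intro x i
    rcases x with x | y
    · left
      rw [hA']
      exact ⟨Sum.inl (q x i), Sum.inr x, hplan.new x i, by rw [hf]; rfl, by rw [hf]; rfl⟩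
    · right
      rw [hxr]
      have h := hL.ex y i
      rw [← hE] at h
      have h3 := edg_of N E _ _ h
      rw [hNcx] at h3
      have e : N (code cv (lq y i)) = Sum.inl (mp (lq y i)) := by
        rw [hmp]
        rcases lq y i with k | k
        · exact hNlt k
        · exact hNcv k
      rw [e] at h3
      exact h3

theorem gSDR (hTRA : StmtTRA) (hROTL : StmtROTL) (hRUN : StmtRUN) : StmtSDR :=
  sdr hTRA hROTL hRUN

end Pool.Agent.Helper50.CR
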